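import Pool.Agent.Q77.LU.StmU
import Pool.Agent.Q164.LU.THD
import Pool.Agent.Q149.LU.TB
import Pool.Agent.Q230.LU.KIN

/-! # Job THDU: bounds of the derivatives of the chart in the tree gauge -/

set_option autoImplicit false
set_option linter.unusedSectionVars false

namespace Pool.Agent.Q98.LU

open Pool.Agent.Q77.LU
open Pool.Agent.Q164.LU (psum psum_apply Yd Yd_apply hd_tg hd_ch cd_mul cd_inv xi_div HD)
open Pool.Agent.Q230.LU (xi_sq u_sq grd n2_le_norm_sq)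
open MeasureTheory Matrix Set Filter Topology
open scoped ContDiff Matrix.Norms.Frobenius

noncomputable section

/-! ### general functions -/

section gen

variable {E R : Type} [NormedAddCommGroup E] [NormedSpace ℝ E] [NormedRing R] [NormedAlgebra ℝ R]

/-- bounds of the derivatives at `x` of a product of `k` factors -/
structure UR (f : E → R) (x : E) (a b k : ℝ) : Prop where
  cd : ContDiff ℝ ∞ f
  k0 : 0 ≤ k
  m1 : ∀ A, ‖f x * A‖ = ‖A‖
  m2 : ∀ A, ‖A * f x‖ = ‖A‖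
  d1 : ∀ v, ‖fderiv ℝ f x v‖ ≤ k * a * ‖v‖
  d2 : ∀ v w, ‖fderiv ℝ (fun y => fderiv ℝ f y v) x w‖ ≤
    (k * b + k ^ 2 * a ^ 2) * ‖v‖ * ‖w‖

lemma fderiv_mul_mat {f g : E → R} (hf : ContDiff ℝ ∞ f) (hg : ContDiff ℝ ∞ g) (y v : E) :
    fderiv ℝ (fun x => f x * g x) y v = f y * fderiv ℝ g y v + fderiv ℝ f y v * g y := by
  have h1 : HasFDerivAt f (fderiv ℝ f y) y := (hf.differentiable (by simp) y).hasFDerivAt
  have h2 : HasFDerivAt g (fderiv ℝ g y) y := (hg.differentiable (by simp) y).hasFDerivAt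
  have h3 : HasFDerivAt (fun x => f x * g x) _ y := h1.mul' h2
  rw [h3.fderiv]
  rfl

lemma cd_dir {F : Type} [NormedAddCommGroup F] [NormedSpace ℝ F] {f : E → F}
    (hf : ContDiff ℝ ∞ f) (v : E) : ContDiff ℝ ∞ fun y => fderiv ℝ f y v :=
  (hf.fderiv_right (m := ∞) (by simp)).clm_apply contDiff_const

lemma UR.mul {φ ψ : E → R} {x : E} {a b k k' : ℝ} (ha : 0 ≤ a) (h : UR φ x a b k)
    (h' : UR ψ x a b k') : UR (fun x => φ x * ψ x) x a b (k + k') := by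
  have h1 : ∀ y v, fderiv ℝ (fun x => φ x * ψ x) y v =
      φ y * fderiv ℝ ψ y v + fderiv ℝ φ y v * ψ y := fun y v => fderiv_mul_mat h.cd h'.cd y v
  refine ⟨h.cd.mul h'.cd, add_nonneg h.k0 h'.k0, fun A => ?_, fun A => ?_, fun v => ?_,
    fun v w => ?_⟩
  · rw [mul_assoc, h.m1, h'.m1]
  · rw [← mul_assoc, h'.m2, h.m2]
  · rw [h1]
    refine (norm_add_le _ _).trans ?_
    rw [h.m1, h'.m2]
    have := h.d1 v
    have := h'.d1 v
    nlinarith
  · have e1 : (fun y => fderiv ℝ (fun x => φ x * ψ x) y v) = fun y =>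
      φ y * fderiv ℝ ψ y v + fderiv ℝ φ y v * ψ y := by
      funext y
      exact h1 y v
    rw [e1]
    have c1 := cd_dir h.cd v
    have c2 := cd_dir h'.cd v
    have e2 : fderiv ℝ (fun y => φ y * fderiv ℝ ψ y v + fderiv ℝ φ y v * ψ y) x w =
        (φ x * fderiv ℝ (fun y => fderiv ℝ ψ y v) x w +
          fderiv ℝ φ x w * fderiv ℝ ψ x v) +
        (fderiv ℝ φ x v * fderiv ℝ ψ x w +
          fderiv ℝ (fun y => fderiv ℝ φ y v) x w * ψ x) := by
      have d1 : DifferentiableAt ℝ (fun y => φ y * fderiv ℝ ψ y v) x :=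
        (h.cd.mul c2).differentiable (by simp) x
      have d2 : DifferentiableAt ℝ (fun y => fderiv ℝ φ y v * ψ y) x :=
        (c1.mul h'.cd).differentiable (by simp) x
      rw [fderiv_fun_add d1 d2, _root_.add_apply, fderiv_mul_mat h.cd c2, fderiv_mul_mat c1 h'.cd]
    rw [e2]
    have n1 := h.d1 v
    have n2 := h.d1 w
    have n3 := h'.d1 v
    have n4 := h'.d1 w
    have n5 := h.d2 v w
    have n6 := h'.d2 v w
    have hk := h.k0
    have hk' := h'.k0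
    have q1 : ‖fderiv ℝ φ x w * fderiv ℝ ψ x v‖ ≤
        (k * a * ‖w‖) * (k' * a * ‖v‖) := by
      refine (norm_mul_le _ _).trans ?_
      gcongr
    have q2 : ‖fderiv ℝ φ x v * fderiv ℝ ψ x w‖ ≤
        (k * a * ‖v‖) * (k' * a * ‖w‖) := by
      refine (norm_mul_le _ _).trans ?_
      gcongr
    refine (norm_add_le _ _).trans ?_
    refine (add_le_add (norm_add_le _ _) (norm_add_le _ _)).trans ?_
    rw [h.m1, h'.m2]
    refine (add_le_add (add_le_add n6 q1) (add_le_add q2 n5)).trans (le_of_eq ?_)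
    ring

lemma UR.one {x : E} {a b : ℝ} : UR (fun _ : E => (1 : R)) x a b 0 := by
  refine ⟨contDiff_const, le_rfl, fun A => by rw [one_mul], fun A => by rw [mul_one],
    fun v => ?_, fun v w => ?_⟩
  · simp
  · have h : (fun y : E => fderiv ℝ (fun _ : E => (1 : R)) y v) = fun _ => 0 := by
      funext y
      simp
    rw [h]
    simp

lemma UR.mono {φ : E → R} {x : E} {a b k k' : ℝ} (ha : 0 ≤ a) (hb : 0 ≤ b) (h : UR φ x a b k)
    (hk : k ≤ k') : UR φ x a b k' := by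
  have h0 := h.k0
  refine ⟨h.cd, h0.trans hk, h.m1, h.m2, fun v => (h.d1 v).trans ?_,
    fun v w => (h.d2 v w).trans ?_⟩
  · gcongr
  · gcongr

lemma UR.iso {φ : E → R} {x : E} {a b k : ℝ} (h : UR φ x a b k) (S : R →L[ℝ] R)
    (hS : ∀ A, ‖S A‖ = ‖A‖) (m1 : ∀ A, ‖S (φ x) * A‖ = ‖A‖) (m2 : ∀ A, ‖A * S (φ x)‖ = ‖A‖) :
    UR (fun x => S (φ x)) x a b k := by
  have h1 : ∀ {f : E → R}, ContDiff ℝ ∞ f → ∀ y v, fderiv ℝ (fun x => S (f x)) y v =
      S (fderiv ℝ f y v) := by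
    intro f hf y v
    have h1 : HasFDerivAt f (fderiv ℝ f y) y := (hf.differentiable (by simp) y).hasFDerivAt
    have h2 : HasFDerivAt (fun x => S (f x)) (S.comp (fderiv ℝ f y)) y :=
      S.hasFDerivAt.comp y h1
    rw [h2.fderiv]
    rfl
  refine ⟨S.contDiff.comp h.cd, h.k0, m1, m2, fun v => ?_, fun v w => ?_⟩
  · rw [h1 h.cd, hS]
    exact h.d1 v
  · have e1 : (fun y => fderiv ℝ (fun x => S (φ x)) y v) =
        fun y => S (fderiv ℝ φ y v) := by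
      funext y
      rw [h1 h.cd]
    rw [e1, h1 (cd_dir h.cd v), hS]
    exact h.d2 v w

/-- composition with a linear map -/
lemma UR.comp {X : Type} [NormedAddCommGroup X] [NormedSpace ℝ X] {g : X → R}
    (hg : ContDiff ℝ ∞ g) (T : E →L[ℝ] X) {x : E} {K1 K2 τ : ℝ} (hK1 : 0 ≤ K1) (hK2 : 0 ≤ K2)
    (h1 : ‖fderiv ℝ g (T x)‖ ≤ K1) (h2 : ‖fderiv ℝ (fderiv ℝ g) (T x)‖ ≤ K2)
    (hτ0 : 0 ≤ τ) (hτ : ∀ v, ‖T v‖ ≤ τ * ‖v‖) (m1 : ∀ A, ‖g (T x) * A‖ = ‖A‖)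
    (m2 : ∀ A, ‖A * g (T x)‖ = ‖A‖) :
    UR (fun x => g (T x)) x (K1 * τ) (K2 * τ ^ 2) 1 := by
  have hE' : ContDiff ℝ ∞ (fderiv ℝ g) := hg.fderiv_right (m := ∞) (by simp)
  have e1 : ∀ y v, fderiv ℝ (fun x => g (T x)) y v = fderiv ℝ g (T y) (T v) := by
    intro y v
    have h3 : HasFDerivAt (fun x => g (T x)) ((fderiv ℝ g (T y)).comp T) y :=
      ((hg.differentiable (by simp) (T y)).hasFDerivAt).comp y T.hasFDerivAt
    rw [h3.fderiv]
    rfl
  refine ⟨hg.comp T.contDiff, zero_le_one, m1, m2, fun v => ?_, fun v w => ?_⟩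
  · rw [e1]
    calc ‖fderiv ℝ g (T x) (T v)‖ ≤ K1 * ‖T v‖ :=
          ContinuousLinearMap.le_of_opNorm_le _ h1 _
      _ ≤ K1 * (τ * ‖v‖) := by gcongr; exact hτ v
      _ = 1 * (K1 * τ) * ‖v‖ := by ring
  · have e2 : (fun y => fderiv ℝ (fun x => g (T x)) y v) =
        fun y => fderiv ℝ g (T y) (T v) := by
      funext y
      exact e1 y v
    rw [e2]
    have h4 : HasFDerivAt (fun y => fderiv ℝ g (T y))
        ((fderiv ℝ (fderiv ℝ g) (T x)).comp T) x :=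
      ((hE'.differentiable (by simp) (T x)).hasFDerivAt).comp x T.hasFDerivAt
    have h5 := h4.clm_apply (hasFDerivAt_const (T v) x)
    rw [h5.fderiv]
    simp only [ContinuousLinearMap.comp_zero, zero_add,
      ContinuousLinearMap.flip_apply, ContinuousLinearMap.comp_apply]
    calc ‖fderiv ℝ (fderiv ℝ g) (T x) (T w) (T v)‖
        ≤ K2 * ‖T w‖ * ‖T v‖ := by
          refine ContinuousLinearMap.le_of_opNorm_le _ ?_ _
          exact ContinuousLinearMap.le_of_opNorm_le _ h2 _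
      _ ≤ K2 * (τ * ‖w‖) * (τ * ‖v‖) := by
          have := hτ v
          have := hτ w
          gcongr
      _ = K2 * τ ^ 2 * ‖v‖ * ‖w‖ := by ring
      _ ≤ (1 * (K2 * τ ^ 2) + 1 ^ 2 * (K1 * τ) ^ 2) * ‖v‖ * ‖w‖ := by
          gcongr
          nlinarith [sq_nonneg (K1 * τ)]

/-- bounds of the derivatives of a smooth function on the unit ball -/
lemma exists_bounds {X : Type} [NormedAddCommGroup X] [NormedSpace ℝ X] [FiniteDimensional ℝ X]
    {g : X → R} (hg : ContDiff ℝ ∞ g) : ∃ K1 K2 : ℝ, 0 ≤ K1 ∧ 0 ≤ K2 ∧ ∀ y, ‖y‖ ≤ 1 →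
      ‖fderiv ℝ g y‖ ≤ K1 ∧ ‖fderiv ℝ (fderiv ℝ g) y‖ ≤ K2 := by
  have hE' : ContDiff ℝ ∞ (fderiv ℝ g) := hg.fderiv_right (m := ∞) (by simp)
  have hcomp : IsCompact (Metric.closedBall (0 : X) 1) := by
    have : ProperSpace X := FiniteDimensional.proper ℝ X
    exact isCompact_closedBall _ _
  obtain ⟨K1, h1⟩ := hcomp.exists_bound_of_continuousOn (f := fun x => fderiv ℝ g x)
    (hg.continuous_fderiv (by simp)).continuousOn
  obtain ⟨K2, h2⟩ := hcomp.exists_bound_of_continuousOn (f := fun x => fderiv ℝ (fderiv ℝ g) x)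
    (hE'.continuous_fderiv (by simp)).continuousOn
  refine ⟨max K1 0, max K2 0, le_max_right _ _, le_max_right _ _, fun y hy => ?_⟩
  have hy' : y ∈ Metric.closedBall (0 : X) 1 := by rwa [mem_closedBall_zero_iff]
  exact ⟨(h1 y hy').trans (le_max_left _ _), (h2 y hy').trans (le_max_left _ _)⟩

/-- the norms of the iterated derivatives of a family -/
lemma iterated_le {ι : Type} [Fintype ι] {f : ι → E → R} {x : E} {a b k : ℝ} (ha : 0 ≤ a)
    (hb : 0 ≤ b) (hk : 0 ≤ k) (h : ∀ i, UR (f i) x a b k) :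
    ‖iteratedFDeriv ℝ 1 (fun x i => f i x) x‖ ≤ k * a ∧
    ‖iteratedFDeriv ℝ 2 (fun x i => f i x) x‖ ≤ k * b + k ^ 2 * a ^ 2 := by
  have hF : ContDiff ℝ ∞ (fun x i => f i x) := contDiff_pi.2 fun i => (h i).cd
  have hF' : ContDiff ℝ ∞ (fderiv ℝ (fun x i => f i x)) := hF.fderiv_right (m := ∞) (by simp)
  have e1 : ∀ y v i, fderiv ℝ (fun x i => f i x) y v i = fderiv ℝ (f i) y v := by
    intro y v i
    have h1 : HasFDerivAt (fun x i => f i x)
        (ContinuousLinearMap.pi fun i => fderiv ℝ (f i) y) y :=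
      hasFDerivAt_pi.2 fun i => ((h i).cd.differentiable (by simp) y).hasFDerivAt
    rw [h1.fderiv]
    rfl
  constructor
  · rw [norm_iteratedFDeriv_one]
    refine ContinuousLinearMap.opNorm_le_bound _ (by positivity) fun v => ?_
    refine (pi_norm_le_iff_of_nonneg (by positivity)).2 fun i => ?_
    rw [e1]
    exact (h i).d1 v
  · rw [show (2 : ℕ) = 1 + 1 from rfl, ← norm_iteratedFDeriv_fderiv, norm_iteratedFDeriv_one]
    refine ContinuousLinearMap.opNorm_le_bound _ (by positivity) fun w => ?_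
    refine ContinuousLinearMap.opNorm_le_bound _ (by positivity) fun v => ?_
    refine (pi_norm_le_iff_of_nonneg (by positivity)).2 fun i => ?_
    have e2 : fderiv ℝ (fderiv ℝ (fun x i => f i x)) x w v i =
        fderiv ℝ (fun y => fderiv ℝ (f i) y v) x w := by
      have h1 : HasFDerivAt (fderiv ℝ (fun x i => f i x))
        (fderiv ℝ (fderiv ℝ (fun x i => f i x)) x) x :=
        (hF'.differentiable (by simp) x).hasFDerivAt
      have h2 := h1.clm_apply (hasFDerivAt_const v x)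
      have h3 := hasFDerivAt_pi'.1 h2 i
      simp only [e1] at h3
      rw [h3.fderiv]
      simp
    rw [e2]
    refine ((h i).d2 v w).trans (le_of_eq ?_)
    ring

end gen

/-! ### products of unitary functions -/

section

variable {N : ℕ} {G : Subgroup (UU N)}

lemma norm_mul_left (g : G) (A : Mt N) : ‖mt g * A‖ = ‖A‖ := by
  have h : ‖mt g * A‖ ^ 2 = ‖A‖ ^ 2 := by
    rw [← fro2_eq, ← fro2_eq]
    unfold fro2
    have h1 : (mt g * A)ᴴ * (mt g * A) = Aᴴ * A := by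
      rw [conjTranspose_mul]
      calc Aᴴ * (mt g)ᴴ * (mt g * A) = Aᴴ * ((mt g)ᴴ * mt g) * A := by noncomm_ring
        _ = Aᴴ * A := by rw [mt_unit', mul_one]
    rw [h1]
  exact (pow_left_inj₀ (norm_nonneg _) (norm_nonneg _) two_ne_zero).1 h

lemma norm_mul_right (g : G) (A : Mt N) : ‖A * mt g‖ = ‖A‖ := by
  have h : ‖A * mt g‖ ^ 2 = ‖A‖ ^ 2 := by
    rw [← fro2_eq, ← fro2_eq]
    unfold fro2
    have h1 : (A * mt g)ᴴ * (A * mt g) = (mt g)ᴴ * (Aᴴ * A * mt g) := by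
      rw [conjTranspose_mul]
      noncomm_ring
    rw [h1, trace_mul_comm]
    have h2 : Aᴴ * A * mt g * (mt g)ᴴ = Aᴴ * A := by
      rw [mul_assoc, mt_unit, mul_one]
    rw [h2]
  exact (pow_left_inj₀ (norm_nonneg _) (norm_nonneg _) two_ne_zero).1 h

lemma norm_star_mat (A : Mt N) : ‖star A‖ = ‖A‖ := Matrix.frobenius_norm_conjTranspose A

variable {E : Type} [NormedAddCommGroup E] [NormedSpace ℝ E]

/-- bounds of the derivatives at `x` of a product of `k` factors -/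
def UB (φ : E → G) (x : E) (a b k : ℝ) : Prop := UR (fun x => mt (φ x)) x a b k

lemma UB.mul {φ ψ : E → G} {x : E} {a b k k' : ℝ} (ha : 0 ≤ a) (h : UB φ x a b k)
    (h' : UB ψ x a b k') : UB (fun x => φ x * ψ x) x a b (k + k') := UR.mul ha h h'

lemma UB.one {x : E} {a b : ℝ} : UB (fun _ : E => (1 : G)) x a b 0 := UR.one

lemma UB.mono {φ : E → G} {x : E} {a b k k' : ℝ} (ha : 0 ≤ a) (hb : 0 ≤ b) (h : UB φ x a b k)
    (hk : k ≤ k') : UB φ x a b k' := UR.mono ha hb h hk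

lemma UB.inv {φ : E → G} {x : E} {a b k : ℝ} (h : UB φ x a b k) :
    UB (fun x => (φ x)⁻¹) x a b k := by
  have h1 := UR.iso h ((starL' ℝ : Mt N ≃L[ℝ] Mt N) : Mt N →L[ℝ] Mt N) norm_star_mat
    (fun A => norm_mul_left (φ x)⁻¹ A) (fun A => norm_mul_right (φ x)⁻¹ A)
  exact h1

lemma UB.prod {x : E} {a b K : ℝ} (ha : 0 ≤ a) (m : ℕ) (φ : Fin m → E → G)
    (h : ∀ i, UB (φ i) x a b K) :
    UB (fun x => (List.ofFn fun i => φ i x).prod) x a b (m * K) := by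
  induction m with
  | zero => simpa using UB.one
  | succ m ih =>
    simp only [List.ofFn_succ, List.prod_cons]
    have h1 := (h 0).mul ha (ih (fun i => φ i.succ) fun i => h i.succ)
    have h2 : K + (m : ℝ) * K = ((m + 1 : ℕ) : ℝ) * K := by push_cast; ring
    rw [h2] at h1
    exact h1

end

/-! ### the chart -/

section

variable {N n D l : ℕ} {G : Subgroup (UU N)} [NeZero l] {B : LieBasis G n}

/-- bounds of the derivatives of the exponential -/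
lemma exp_bounds (N : ℕ) : ∃ K1 K2 : ℝ, 0 ≤ K1 ∧ 0 ≤ K2 ∧ ∀ (E : Type) [NormedAddCommGroup E]
    [NormedSpace ℝ E] (X : E →L[ℝ] Mt N) (z : E), ‖X z‖ ≤ 1 → ∀ τ : ℝ, 0 ≤ τ →
      (∀ v, ‖X v‖ ≤ τ * ‖v‖) →
      (∀ A, ‖NormedSpace.exp (X z) * A‖ = ‖A‖) → (∀ A, ‖A * NormedSpace.exp (X z)‖ = ‖A‖) →
      UR (fun x => NormedSpace.exp (X x)) z (K1 * τ) (K2 * τ ^ 2) 1 := by
  obtain ⟨K1, K2, h1, h2, hK⟩ := exists_bounds (Pool.Agent.Q149.LU.contDiff_expM (N := N))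
  refine ⟨K1, K2, h1, h2, fun E _ _ X z hz τ hτ0 hτ m1 m2 => ?_⟩
  exact UR.comp (Pool.Agent.Q149.LU.contDiff_expM (N := N)) X h1 h2 (hK _ hz).1 (hK _ hz).2
    hτ0 hτ m1 m2

lemma nx_le (dc : Dec B D l) (x : (Fin D × Fin n → ℝ) × (Fin dc.M → ℝ)) :
    nx x ≤ ((D : ℝ) * n + dc.M) * ‖x‖ ^ 2 := by
  unfold nx
  have h1 := n2_le_norm_sq x.1
  have h2 := n2_le_norm_sq x.2
  rw [Fintype.card_prod, Fintype.card_fin, Fintype.card_fin] at h1
  rw [Fintype.card_fin] at h2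
  have h3 : ‖x.1‖ ≤ ‖x‖ := norm_fst_le x
  have h4 : ‖x.2‖ ≤ ‖x‖ := norm_snd_le x
  have h5 : ((D * n : ℕ) : ℝ) * ‖x.1‖ ^ 2 ≤ ((D * n : ℕ) : ℝ) * ‖x‖ ^ 2 := by gcongr
  have h6 : (dc.M : ℝ) * ‖x.2‖ ^ 2 ≤ (dc.M : ℝ) * ‖x‖ ^ 2 := by gcongr
  push_cast at h1 h5
  nlinarith

lemma norm_Yd_sq (dc : Dec B D l) (e : Link D l) (x : (Fin D × Fin n → ℝ) × (Fin dc.M → ℝ)) :
    ‖Yd dc e x‖ ^ 2 ≤ nx x := by
  rw [Yd_apply, ← fro2_eq, fro2_lin, ← xi_sq, Fintype.sum_prod_type (f := fun p => dc.xi x p ^ 2)]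
  unfold n2
  exact Finset.single_le_sum (f := fun e => ∑ a, dc.xi x (e, a) ^ 2)
    (fun _ _ => Finset.sum_nonneg fun _ _ => sq_nonneg _) (Finset.mem_univ e)

lemma norm_Yd (dc : Dec B D l) (e : Link D l) (x : (Fin D × Fin n → ℝ) × (Fin dc.M → ℝ)) :
    ‖Yd dc e x‖ ≤ (1 + (D : ℝ) * n + dc.M) * ‖x‖ := by
  have h1 := (norm_Yd_sq dc e x).trans (nx_le dc x)
  have h2 : 0 ≤ (D : ℝ) * n + dc.M := by positivity
  refine abs_le_of_sq_le_sq' ?_ (by positivity) |>.2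
  refine h1.trans ?_
  rw [mul_pow]
  gcongr
  nlinarith

/-- the chart at a link -/
lemma ub_ch {K1 K2 : ℝ}
    (hK : ∀ (E : Type) [NormedAddCommGroup E]
    [NormedSpace ℝ E] (X : E →L[ℝ] Mt N) (z : E), ‖X z‖ ≤ 1 → ∀ τ : ℝ, 0 ≤ τ →
      (∀ v, ‖X v‖ ≤ τ * ‖v‖) →
      (∀ A, ‖NormedSpace.exp (X z) * A‖ = ‖A‖) → (∀ A, ‖A * NormedSpace.exp (X z)‖ = ‖A‖) →
      UR (fun x => NormedSpace.exp (X x)) z (K1 * τ) (K2 * τ ^ 2) 1)
    (h0 : S_EXPG) (hG : IsClosed (G : Set (UU N))) (dc : Dec B D l) (e : Link D l)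
    (x : (Fin D × Fin n → ℝ) × (Fin dc.M → ℝ)) (hx : nx x ≤ 1) :
    UB (fun x => dc.ch x e) x (K1 * (1 + (D : ℝ) * n + dc.M))
      (K2 * (1 + (D : ℝ) * n + dc.M) ^ 2) 1 := by
  have h1 : ∀ x, mt (dc.ch x e) = NormedSpace.exp (Yd dc e x) := fun x => mt_eG h0 hG B _
  have h2 : ‖Yd dc e x‖ ≤ 1 := by
    have := (norm_Yd_sq dc e x).trans hx
    refine abs_le_of_sq_le_sq' ?_ zero_le_one |>.2
    simpa using this
  unfold UB
  have e0 : (fun x => mt (dc.ch x e)) = fun x => NormedSpace.exp (Yd dc e x) := funext h1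
  rw [e0]
  refine hK _ (Yd dc e) x h2 _ (by positivity) (norm_Yd dc e) (fun A => ?_) (fun A => ?_)
  · rw [← h1]
    exact norm_mul_left _ _
  · rw [← h1]
    exact norm_mul_right _ _

lemma ub_pth (dc : Dec B D l) {x : (Fin D × Fin n → ℝ) × (Fin dc.M → ℝ)} {a b : ℝ}
    (ha : 0 ≤ a) (hb : 0 ≤ b) (h : ∀ e, UB (fun x => dc.ch x e) x a b 1)
    (y : Fin D → ZMod l) : UB (fun x => pth (dc.ch x) y) x a b (D * l) := by
  unfold pth
  refine UB.prod ha _ _ fun i => ?_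
  have h1 : UB (fun x => (List.ofFn fun s : Fin (y i).val =>
    dc.ch x (fun j => if j < i then y j else if j = i then ((s : ℕ) : ZMod l) else 0, i)).prod)
    x a b ((y i).val * 1) := UB.prod ha _ _ fun s => h _
  refine h1.mono ha hb ?_
  rw [mul_one]
  exact_mod_cast (ZMod.val_lt (y i)).le

lemma ub_tg (dc : Dec B D l) {x : (Fin D × Fin n → ℝ) × (Fin dc.M → ℝ)} {a b : ℝ}
    (ha : 0 ≤ a) (hb : 0 ≤ b) (h : ∀ e, UB (fun x => dc.ch x e) x a b 1)
    (e : Link D l) : UB (fun x => tg (dc.ch x) e) x a b (D * l + 1 + D * l) := by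
  unfold tg Pool.Agent.Q77.LU.gauge
  exact ((ub_pth dc ha hb h _).mul ha (h e)).mul ha (ub_pth dc ha hb h _).inv

/-- lower bound of the derivative at the origin -/
lemma lower (h0 : S_EXPG) (h1 : S_TGA) (hG : IsClosed (G : Set (UU N))) (dc : Dec B D l)
    (v : (Fin D × Fin n → ℝ) × (Fin dc.M → ℝ)) :
    nx v ≤ ∑ e, ‖fderiv ℝ (fun x (e : NT D l) => Pool.Agent.Q77.LU.mt (dc.th x e)) 0 v e‖ ^ 2 := by
  have htree : ∀ (e : Link D l), inT e → ∀ x, tg (dc.ch x) e = 1 := fun e he x =>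
    (h1 N D l G (dc.ch x)).1 e he
  have h3 : HasFDerivAt (fun x (e : NT D l) => mt (dc.th x e))
      (ContinuousLinearMap.pi fun e : NT D l => psum (Yd dc) e.1.1 + Yd dc e.1 +
        -psum (Yd dc) (e.1.1 + unitv e.1.2)) 0 :=
    hasFDerivAt_pi.2 fun e => (hd_tg h0 hG dc e.1).der
  rw [h3.fderiv]
  set Z : Link D l → Mt N := fun e => (psum (Yd dc) e.1 + Yd dc e +
        -psum (Yd dc) (e.1 + unitv e.2)) v with hZ
  have hZ0 : ∀ e : Link D l, inT e → Z e = 0 := by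
    intro e he
    have h5 := (hd_tg h0 hG dc e).der
    simp only [htree e he] at h5
    have h6 := h5.unique (hasFDerivAt_const (mt (1 : G)) _)
    rw [hZ]
    simp only
    rw [h6]
    rfl
  have h5 : ∀ x, psum (Yd dc) x v = lin B (psum (fun e a => dc.xi v (e, a)) x) := by
    intro x
    unfold psum
    simp only [_root_.sum_apply, Yd_apply]
    show _ = Pool.Agent.Q164.LU.linL B _
    simp only [map_sum]
    rfl
  set ζ : (Fin D → ZMod l) × Fin n → ℝ :=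
    fun q => -psum (fun e a => dc.xi v (e, a)) q.1 q.2 with hζ
  set W : Link D l × Fin n → ℝ := fun p => dc.xi v p + grd n D l ζ p with hW
  have h6 : ∀ e : Link D l, Z e = lin B (fun a => W (e, a)) := by
    intro e
    rw [hZ]
    simp only [_root_.add_apply, _root_.neg_apply, h5, Yd_apply]
    show Pool.Agent.Q164.LU.linL B _ + Pool.Agent.Q164.LU.linL B _ +
      -Pool.Agent.Q164.LU.linL B _ = Pool.Agent.Q164.LU.linL B _
    rw [← map_neg, ← map_add, ← map_add]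
    congr 1
    funext a
    simp only [hW, grd, hζ, LinearMap.coe_mk, AddHom.coe_mk, Pi.add_apply, Pi.neg_apply]
    ring
  have h7 : ∑ e : NT D l, ‖Z e.1‖ ^ 2 = ∑ e : Link D l, ‖Z e‖ ^ 2 := by
    classical
    have e1 := Fintype.sum_subtype_add_sum_subtype (fun e : Link D l => ¬ inT e)
      (fun e => ‖Z e‖ ^ 2)
    have e2 : ∑ e : {e : Link D l // ¬¬ inT e}, ‖Z e.1‖ ^ 2 = 0 := by
      refine Finset.sum_eq_zero fun e _ => ?_
      rw [hZ0 e.1 (not_not.1 e.2)]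
      simp
    rw [e2, add_zero] at e1
    rw [← e1]
  have h8 : ∑ e : Link D l, ‖Z e‖ ^ 2 = ∑ p, W p ^ 2 := by
    rw [Fintype.sum_prod_type (f := fun p => W p ^ 2)]
    refine Finset.sum_congr rfl fun e _ => ?_
    rw [h6, ← fro2_eq, fro2_lin]
    rfl
  have h9 := u_sq dc v.1 v.2 ζ (u := W) (fun p => rfl)
  have h10 : (∑ e : NT D l, ‖(ContinuousLinearMap.pi fun e : NT D l => psum (Yd dc) e.1.1 +
      Yd dc e.1 + -psum (Yd dc) (e.1.1 + unitv e.1.2)) v e‖ ^ 2) =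
        ∑ e : NT D l, ‖Z e.1‖ ^ 2 := rfl
  rw [h10, h7, h8, h9]
  have h11 : 0 ≤ ∑ p, grd n D l ζ p ^ 2 := Finset.sum_nonneg fun _ _ => sq_nonneg _
  unfold nx n2
  linarith

lemma M_le (dc : Dec B D l) : (dc.M : ℝ) ≤ ((D : ℝ) * n + n) * (l : ℝ) ^ D := by
  have h1 := dc.card
  have h2 : dc.M ≤ D * l ^ D * n + n := by omega
  have h3 : (dc.M : ℝ) ≤ D * (l : ℝ) ^ D * n + n := by exact_mod_cast h2
  have h4 : (1 : ℝ) ≤ (l : ℝ) ^ D := by
    have : (1 : ℝ) ≤ l := by exact_mod_cast Nat.one_le_iff_ne_zero.2 (NeZero.ne l)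
    exact one_le_pow₀ this
  have h5 : (n : ℝ) ≤ n * (l : ℝ) ^ D := by
    have : (0 : ℝ) ≤ n := by positivity
    nlinarith
  nlinarith

end

/-- Bounds of the derivatives of the chart in the tree gauge. -/
theorem t_THDU (h0 : S_EXPG) (h1 : S_TGA) : S_THDU := by
  intro N n D G hG B
  obtain ⟨K1, K2, hK1, hK2, hK⟩ := exp_bounds N
  set c0 : ℝ := 1 + 2 * D * n + n with hc0
  have hc0' : 1 ≤ c0 := by
    have : (0 : ℝ) ≤ 2 * D * n + n := by positivity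
    rw [hc0]; linarith
  set C : ℝ := 1 + (2 * D + 1) * (K1 * c0) + ((2 * D + 1) * (K2 * c0 ^ 2) +
    (2 * D + 1) ^ 2 * (K1 * c0) ^ 2) with hC
  have q1 : 0 ≤ (2 * (D : ℝ) + 1) * (K1 * c0) := by positivity
  have q2 : 0 ≤ (2 * (D : ℝ) + 1) * (K2 * c0 ^ 2) + (2 * D + 1) ^ 2 * (K1 * c0) ^ 2 := by
    positivity
  refine ⟨2 * D + 2, C, by rw [hC]; linarith, fun l _ dc => ⟨fun v => lower h0 h1 hG dc v,
    fun x hx => ?_⟩⟩
  set τ : ℝ := 1 + (D : ℝ) * n + dc.M with hτ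
  have hl : (1 : ℝ) ≤ l := by exact_mod_cast Nat.one_le_iff_ne_zero.2 (NeZero.ne l)
  have hlD : (1 : ℝ) ≤ (l : ℝ) ^ D := one_le_pow₀ hl
  have hτ0 : 0 ≤ τ := by positivity
  have hτ1 : τ ≤ c0 * (l : ℝ) ^ D := by
    have h2 := M_le dc
    have h3 : (1 + (D : ℝ) * n) ≤ (1 + (D : ℝ) * n) * (l : ℝ) ^ D := by
      have : 0 ≤ (1 + (D : ℝ) * n) := by positivity
      nlinarith
    rw [hτ, hc0]
    nlinarith
  have ha : 0 ≤ K1 * τ := by positivity
  have hb : 0 ≤ K2 * τ ^ 2 := by positivity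
  have hub : ∀ e, UB (fun x => dc.ch x e) x (K1 * τ) (K2 * τ ^ 2) 1 := fun e =>
    ub_ch hK h0 hG dc e x hx
  have hk : (0 : ℝ) ≤ D * l + 1 + D * l := by positivity
  have hk1 : (D : ℝ) * l + 1 + D * l ≤ (2 * D + 1) * l := by nlinarith
  have hmain := iterated_le ha hb hk (fun e : NT D l => ub_tg dc ha hb hub e.1)
  have hmain1 : ‖iteratedFDeriv ℝ 1 (fun x (e : NT D l) => mt (dc.th x e)) x‖ ≤
      (D * l + 1 + D * l) * (K1 * τ) := hmain.1
  have hmain2 : ‖iteratedFDeriv ℝ 2 (fun x (e : NT D l) => mt (dc.th x e)) x‖ ≤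
      (D * l + 1 + D * l) * (K2 * τ ^ 2) + (D * l + 1 + D * l) ^ 2 * (K1 * τ) ^ 2 := hmain.2
  have hp : ∀ m : ℕ, m ≤ 2 * D + 2 → (l : ℝ) ^ m ≤ (l : ℝ) ^ (2 * D + 2) := fun m hm =>
    pow_le_pow_right₀ hl hm
  constructor
  · refine hmain1.trans ?_
    calc (D * l + 1 + D * l) * (K1 * τ) ≤ ((2 * D + 1) * l) * (K1 * (c0 * (l : ℝ) ^ D)) := by
          gcongr
      _ = ((2 * D + 1) * (K1 * c0)) * (l : ℝ) ^ (D + 1) := by ring
      _ ≤ ((2 * D + 1) * (K1 * c0)) * (l : ℝ) ^ (2 * D + 2) :=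
          mul_le_mul_of_nonneg_left (hp _ (by omega)) q1
      _ ≤ C * (l : ℝ) ^ (2 * D + 2) := by
          gcongr
          rw [hC]; linarith
  · refine hmain2.trans ?_
    calc (D * l + 1 + D * l) * (K2 * τ ^ 2) + (D * l + 1 + D * l) ^ 2 * (K1 * τ) ^ 2
        ≤ ((2 * D + 1) * l) * (K2 * (c0 * (l : ℝ) ^ D) ^ 2) +
          ((2 * D + 1) * l) ^ 2 * (K1 * (c0 * (l : ℝ) ^ D)) ^ 2 := by
          gcongr
      _ = ((2 * D + 1) * (K2 * c0 ^ 2)) * (l : ℝ) ^ (2 * D + 1) +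
          ((2 * D + 1) ^ 2 * (K1 * c0) ^ 2) * (l : ℝ) ^ (2 * D + 2) := by ring
      _ ≤ ((2 * D + 1) * (K2 * c0 ^ 2)) * (l : ℝ) ^ (2 * D + 2) +
          ((2 * D + 1) ^ 2 * (K1 * c0) ^ 2) * (l : ℝ) ^ (2 * D + 2) :=
          add_le_add (mul_le_mul_of_nonneg_left (hp _ (by omega)) (by positivity)) le_rfl
      _ = ((2 * D + 1) * (K2 * c0 ^ 2) + (2 * D + 1) ^ 2 * (K1 * c0) ^ 2) *
          (l : ℝ) ^ (2 * D + 2) := by ring
      _ ≤ C * (l : ℝ) ^ (2 * D + 2) := by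
          gcongr
          rw [hC]; linarith

end

end Pool.Agent.Q98.LU
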